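import Pool.Agent.SYC.C18
import Pool.Agent.SYC.C19
import Pool.Agent.SYC.C20
import Pool.Agent.SYC.C21
import Pool.Agent.SYC.C22
import Pool.Agent.SYC.C23
import Pool.Agent.SYC.C24
import Pool.Agent.SYC.C25
import Pool.Agent.SYC.C26
import Pool.Agent.SYC.C27
import Pool.Agent.SYC.C28
import Pool.Agent.SYC.C29
import Pool.Agent.SYC.C30
import Pool.Agent.SYC.C31
import Pool.Agent.SYC.C32
import Pool.Agent.SYC.C33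
import Pool.Agent.SYC.C34
import Pool.Agent.SYC.C35
import Pool.Agent.Rpr.Inp
set_option autoImplicit false
set_option maxRecDepth 1000000
set_option linter.all false

namespace SYC

open Rpr

theorem rng1 : ∀ j, 100 ≤ j → j < 200 → OKc TB QT 9274 PR 80 SY3F.gen9f SY3F.valid9f j := by
  intro j h1 h2
  interval_cases j
  · exact Or.inr ⟨_, _, _, k100⟩
  · exact Or.inr ⟨_, _, _, k101⟩
  · exact Or.inr ⟨_, _, _, k102⟩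
  · exact Or.inr ⟨_, _, _, k103⟩
  · exact Or.inr ⟨_, _, _, k104⟩
  · exact Or.inr ⟨_, _, _, k105⟩
  · exact Or.inr ⟨_, _, _, k106⟩
  · exact Or.inr ⟨_, _, _, k107⟩
  · exact Or.inr ⟨_, _, _, k108⟩
  · exact Or.inr ⟨_, _, _, k109⟩
  · exact Or.inr ⟨_, _, _, k110⟩
  · exact Or.inr ⟨_, _, _, k111⟩
  · exact Or.inr ⟨_, _, _, k112⟩
  · exact Or.inr ⟨_, _, _, k113⟩
  · exact Or.inr ⟨_, _, _, k114⟩
  · exact Or.inr ⟨_, _, _, k115⟩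
  · exact Or.inr ⟨_, _, _, k116⟩
  · exact Or.inr ⟨_, _, _, k117⟩
  · exact Or.inr ⟨_, _, _, k118⟩
  · exact Or.inr ⟨_, _, _, k119⟩
  · exact Or.inr ⟨_, _, _, k120⟩
  · exact Or.inr ⟨_, _, _, k121⟩
  · exact Or.inr ⟨_, _, _, k122⟩
  · exact Or.inr ⟨_, _, _, k123⟩
  · exact Or.inr ⟨_, _, _, k124⟩
  · exact Or.inr ⟨_, _, _, k125⟩
  · exact Or.inr ⟨_, _, _, k126⟩
  · exact Or.inr ⟨_, _, _, k127⟩
  · exact Or.inr ⟨_, _, _, k128⟩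
  · exact Or.inr ⟨_, _, _, k129⟩
  · exact Or.inr ⟨_, _, _, k130⟩
  · exact Or.inr ⟨_, _, _, k131⟩
  · exact Or.inr ⟨_, _, _, k132⟩
  · exact Or.inr ⟨_, _, _, k133⟩
  · exact Or.inr ⟨_, _, _, k134⟩
  · exact Or.inr ⟨_, _, _, k135⟩
  · exact Or.inr ⟨_, _, _, k136⟩
  · exact Or.inr ⟨_, _, _, k137⟩
  · exact Or.inr ⟨_, _, _, k138⟩
  · exact Or.inr ⟨_, _, _, k139⟩
  · exact Or.inr ⟨_, _, _, k140⟩
  · exact Or.inr ⟨_, _, _, k141⟩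
  · exact Or.inr ⟨_, _, _, k142⟩
  · exact Or.inr ⟨_, _, _, k143⟩
  · exact Or.inr ⟨_, _, _, k144⟩
  · exact Or.inr ⟨_, _, _, k145⟩
  · exact Or.inr ⟨_, _, _, k146⟩
  · exact Or.inr ⟨_, _, _, k147⟩
  · exact Or.inr ⟨_, _, _, k148⟩
  · exact Or.inr ⟨_, _, _, k149⟩
  · exact Or.inr ⟨_, _, _, k150⟩
  · exact Or.inr ⟨_, _, _, k151⟩
  · exact Or.inr ⟨_, _, _, k152⟩
  · exact Or.inr ⟨_, _, _, k153⟩
  · exact Or.inr ⟨_, _, _, k154⟩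
  · exact Or.inr ⟨_, _, _, k155⟩
  · exact Or.inr ⟨_, _, _, k156⟩
  · exact Or.inr ⟨_, _, _, k157⟩
  · exact Or.inr ⟨_, _, _, k158⟩
  · exact Or.inr ⟨_, _, _, k159⟩
  · exact Or.inr ⟨_, _, _, k160⟩
  · exact Or.inr ⟨_, _, _, k161⟩
  · exact Or.inr ⟨_, _, _, k162⟩
  · exact Or.inr ⟨_, _, _, k163⟩
  · exact Or.inr ⟨_, _, _, k164⟩
  · exact Or.inr ⟨_, _, _, k165⟩
  · exact Or.inr ⟨_, _, _, k166⟩
  · exact Or.inr ⟨_, _, _, k167⟩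
  · exact Or.inr ⟨_, _, _, k168⟩
  · exact Or.inr ⟨_, _, _, k169⟩
  · exact Or.inr ⟨_, _, _, k170⟩
  · exact Or.inr ⟨_, _, _, k171⟩
  · exact Or.inr ⟨_, _, _, k172⟩
  · exact Or.inr ⟨_, _, _, k173⟩
  · exact Or.inr ⟨_, _, _, k174⟩
  · exact Or.inr ⟨_, _, _, k175⟩
  · exact Or.inr ⟨_, _, _, k176⟩
  · exact Or.inr ⟨_, _, _, k177⟩
  · exact Or.inr ⟨_, _, _, k178⟩
  · exact Or.inr ⟨_, _, _, k179⟩
  · exact Or.inr ⟨_, _, _, k180⟩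
  · exact Or.inr ⟨_, _, _, k181⟩
  · exact Or.inr ⟨_, _, _, k182⟩
  · exact Or.inr ⟨_, _, _, k183⟩
  · exact Or.inr ⟨_, _, _, k184⟩
  · exact Or.inr ⟨_, _, _, k185⟩
  · exact Or.inr ⟨_, _, _, k186⟩
  · exact Or.inr ⟨_, _, _, k187⟩
  · exact Or.inr ⟨_, _, _, k188⟩
  · exact Or.inr ⟨_, _, _, k189⟩
  · exact Or.inr ⟨_, _, _, k190⟩
  · exact Or.inr ⟨_, _, _, k191⟩
  · exact Or.inr ⟨_, _, _, k192⟩
  · exact Or.inr ⟨_, _, _, k193⟩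
  · exact Or.inr ⟨_, _, _, k194⟩
  · exact Or.inr ⟨_, _, _, k195⟩
  · exact Or.inr ⟨_, _, _, k196⟩
  · exact Or.inr ⟨_, _, _, k197⟩
  · exact Or.inr ⟨_, _, _, k198⟩
  · exact Or.inr ⟨_, _, _, k199⟩

end SYC
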