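import Pool.Agent.SYC.C35
import Pool.Agent.SYC.C36
import Pool.Agent.SYC.C37
import Pool.Agent.SYC.C38
import Pool.Agent.SYC.C39
import Pool.Agent.SYC.C40
import Pool.Agent.SYC.C41
import Pool.Agent.SYC.C42
import Pool.Agent.SYC.C43
import Pool.Agent.SYC.C44
import Pool.Agent.SYC.C45
import Pool.Agent.SYC.C46
import Pool.Agent.SYC.C47
import Pool.Agent.SYC.C48
import Pool.Agent.SYC.C49
import Pool.Agent.SYC.C50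
import Pool.Agent.SYC.C51
import Pool.Agent.Rpr.Inp
set_option autoImplicit false
set_option maxRecDepth 1000000
set_option linter.all false

namespace SYC

open Rpr

theorem rng2 : ∀ j, 200 ≤ j → j < 300 → OKc TB QT 9274 PR 80 SY3F.gen9f SY3F.valid9f j := by
  intro j h1 h2
  interval_cases j
  · exact Or.inr ⟨_, _, _, k200⟩
  · exact Or.inr ⟨_, _, _, k201⟩
  · exact Or.inr ⟨_, _, _, k202⟩
  · exact Or.inr ⟨_, _, _, k203⟩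
  · exact Or.inr ⟨_, _, _, k204⟩
  · exact Or.inr ⟨_, _, _, k205⟩
  · exact Or.inr ⟨_, _, _, k206⟩
  · exact Or.inr ⟨_, _, _, k207⟩
  · exact Or.inr ⟨_, _, _, k208⟩
  · exact Or.inr ⟨_, _, _, k209⟩
  · exact Or.inr ⟨_, _, _, k210⟩
  · exact Or.inr ⟨_, _, _, k211⟩
  · exact Or.inr ⟨_, _, _, k212⟩
  · exact Or.inr ⟨_, _, _, k213⟩
  · exact Or.inr ⟨_, _, _, k214⟩
  · exact Or.inr ⟨_, _, _, k215⟩
  · exact Or.inr ⟨_, _, _, k216⟩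
  · exact Or.inr ⟨_, _, _, k217⟩
  · exact Or.inr ⟨_, _, _, k218⟩
  · exact Or.inr ⟨_, _, _, k219⟩
  · exact Or.inr ⟨_, _, _, k220⟩
  · exact Or.inr ⟨_, _, _, k221⟩
  · exact Or.inr ⟨_, _, _, k222⟩
  · exact Or.inr ⟨_, _, _, k223⟩
  · exact Or.inr ⟨_, _, _, k224⟩
  · exact Or.inr ⟨_, _, _, k225⟩
  · exact Or.inr ⟨_, _, _, k226⟩
  · exact Or.inr ⟨_, _, _, k227⟩
  · exact Or.inr ⟨_, _, _, k228⟩
  · exact Or.inr ⟨_, _, _, k229⟩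
  · exact Or.inr ⟨_, _, _, k230⟩
  · exact Or.inr ⟨_, _, _, k231⟩
  · exact Or.inr ⟨_, _, _, k232⟩
  · exact Or.inr ⟨_, _, _, k233⟩
  · exact Or.inr ⟨_, _, _, k234⟩
  · exact Or.inr ⟨_, _, _, k235⟩
  · exact Or.inr ⟨_, _, _, k236⟩
  · exact Or.inr ⟨_, _, _, k237⟩
  · exact Or.inr ⟨_, _, _, k238⟩
  · exact Or.inr ⟨_, _, _, k239⟩
  · exact Or.inr ⟨_, _, _, k240⟩
  · exact Or.inr ⟨_, _, _, k241⟩
  · exact Or.inr ⟨_, _, _, k242⟩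
  · exact Or.inr ⟨_, _, _, k243⟩
  · exact Or.inr ⟨_, _, _, k244⟩
  · exact Or.inr ⟨_, _, _, k245⟩
  · exact Or.inr ⟨_, _, _, k246⟩
  · exact Or.inr ⟨_, _, _, k247⟩
  · exact Or.inr ⟨_, _, _, k248⟩
  · exact Or.inr ⟨_, _, _, k249⟩
  · exact Or.inr ⟨_, _, _, k250⟩
  · exact Or.inr ⟨_, _, _, k251⟩
  · exact Or.inr ⟨_, _, _, k252⟩
  · exact Or.inr ⟨_, _, _, k253⟩
  · exact Or.inr ⟨_, _, _, k254⟩
  · exact Or.inr ⟨_, _, _, k255⟩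
  · exact Or.inr ⟨_, _, _, k256⟩
  · exact Or.inr ⟨_, _, _, k257⟩
  · exact Or.inr ⟨_, _, _, k258⟩
  · exact Or.inr ⟨_, _, _, k259⟩
  · exact Or.inr ⟨_, _, _, k260⟩
  · exact Or.inr ⟨_, _, _, k261⟩
  · exact Or.inr ⟨_, _, _, k262⟩
  · exact Or.inr ⟨_, _, _, k263⟩
  · exact Or.inr ⟨_, _, _, k264⟩
  · exact Or.inr ⟨_, _, _, k265⟩
  · exact Or.inr ⟨_, _, _, k266⟩
  · exact Or.inr ⟨_, _, _, k267⟩
  · exact Or.inr ⟨_, _, _, k268⟩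
  · exact Or.inr ⟨_, _, _, k269⟩
  · exact Or.inr ⟨_, _, _, k270⟩
  · exact Or.inr ⟨_, _, _, k271⟩
  · exact Or.inr ⟨_, _, _, k272⟩
  · exact Or.inr ⟨_, _, _, k273⟩
  · exact Or.inr ⟨_, _, _, k274⟩
  · exact Or.inr ⟨_, _, _, k275⟩
  · exact Or.inr ⟨_, _, _, k276⟩
  · exact Or.inr ⟨_, _, _, k277⟩
  · exact Or.inr ⟨_, _, _, k278⟩
  · exact Or.inr ⟨_, _, _, k279⟩
  · exact Or.inr ⟨_, _, _, k280⟩
  · exact Or.inr ⟨_, _, _, k281⟩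
  · exact Or.inr ⟨_, _, _, k282⟩
  · exact Or.inr ⟨_, _, _, k283⟩
  · exact Or.inr ⟨_, _, _, k284⟩
  · exact Or.inr ⟨_, _, _, k285⟩
  · exact Or.inr ⟨_, _, _, k286⟩
  · exact Or.inr ⟨_, _, _, k287⟩
  · exact Or.inr ⟨_, _, _, k288⟩
  · exact Or.inr ⟨_, _, _, k289⟩
  · exact Or.inr ⟨_, _, _, k290⟩
  · exact Or.inr ⟨_, _, _, k291⟩
  · exact Or.inr ⟨_, _, _, k292⟩
  · exact Or.inr ⟨_, _, _, k293⟩
  · exact Or.inr ⟨_, _, _, k294⟩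
  · exact Or.inr ⟨_, _, _, k295⟩
  · exact Or.inr ⟨_, _, _, k296⟩
  · exact Or.inr ⟨_, _, _, k297⟩
  · exact Or.inr ⟨_, _, _, k298⟩
  · exact Or.inr ⟨_, _, _, k299⟩

end SYC
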