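import Pool.Agent.SYC.C51
import Pool.Agent.SYC.C52
import Pool.Agent.SYC.C53
import Pool.Agent.SYC.C54
import Pool.Agent.SYC.C55
import Pool.Agent.SYC.C56
import Pool.Agent.SYC.C57
import Pool.Agent.SYC.C58
import Pool.Agent.SYC.C59
import Pool.Agent.SYC.C60
import Pool.Agent.SYC.C61
import Pool.Agent.SYC.C62
import Pool.Agent.SYC.C63
import Pool.Agent.SYC.C64
import Pool.Agent.SYC.C65
import Pool.Agent.SYC.C66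
import Pool.Agent.SYC.C67
import Pool.Agent.SYC.C68
import Pool.Agent.SYC.C69
import Pool.Agent.Rpr.Inp
set_option autoImplicit false
set_option maxRecDepth 1000000
set_option linter.all false

namespace SYC

open Rpr

theorem rng3 : ∀ j, 300 ≤ j → j < 400 → OKc TB QT 9274 PR 80 SY3F.gen9f SY3F.valid9f j := by
  intro j h1 h2
  interval_cases j
  · exact Or.inr ⟨_, _, _, k300⟩
  · exact Or.inr ⟨_, _, _, k301⟩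
  · exact Or.inr ⟨_, _, _, k302⟩
  · exact Or.inr ⟨_, _, _, k303⟩
  · exact Or.inr ⟨_, _, _, k304⟩
  · exact Or.inr ⟨_, _, _, k305⟩
  · exact Or.inr ⟨_, _, _, k306⟩
  · exact Or.inr ⟨_, _, _, k307⟩
  · exact Or.inr ⟨_, _, _, k308⟩
  · exact Or.inr ⟨_, _, _, k309⟩
  · exact Or.inr ⟨_, _, _, k310⟩
  · exact Or.inr ⟨_, _, _, k311⟩
  · exact Or.inr ⟨_, _, _, k312⟩
  · exact Or.inr ⟨_, _, _, k313⟩
  · exact Or.inr ⟨_, _, _, k314⟩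
  · exact Or.inr ⟨_, _, _, k315⟩
  · exact Or.inr ⟨_, _, _, k316⟩
  · exact Or.inr ⟨_, _, _, k317⟩
  · exact Or.inr ⟨_, _, _, k318⟩
  · exact Or.inr ⟨_, _, _, k319⟩
  · exact Or.inr ⟨_, _, _, k320⟩
  · exact Or.inr ⟨_, _, _, k321⟩
  · exact Or.inr ⟨_, _, _, k322⟩
  · exact Or.inr ⟨_, _, _, k323⟩
  · exact Or.inr ⟨_, _, _, k324⟩
  · exact Or.inr ⟨_, _, _, k325⟩
  · exact Or.inr ⟨_, _, _, k326⟩
  · exact Or.inr ⟨_, _, _, k327⟩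
  · exact Or.inr ⟨_, _, _, k328⟩
  · exact Or.inr ⟨_, _, _, k329⟩
  · exact Or.inr ⟨_, _, _, k330⟩
  · exact Or.inr ⟨_, _, _, k331⟩
  · exact Or.inr ⟨_, _, _, k332⟩
  · exact Or.inr ⟨_, _, _, k333⟩
  · exact Or.inr ⟨_, _, _, k334⟩
  · exact Or.inr ⟨_, _, _, k335⟩
  · exact Or.inr ⟨_, _, _, k336⟩
  · exact Or.inr ⟨_, _, _, k337⟩
  · exact Or.inr ⟨_, _, _, k338⟩
  · exact Or.inr ⟨_, _, _, k339⟩
  · exact Or.inr ⟨_, _, _, k340⟩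
  · exact Or.inr ⟨_, _, _, k341⟩
  · exact Or.inr ⟨_, _, _, k342⟩
  · exact Or.inr ⟨_, _, _, k343⟩
  · exact Or.inr ⟨_, _, _, k344⟩
  · exact Or.inr ⟨_, _, _, k345⟩
  · exact Or.inr ⟨_, _, _, k346⟩
  · exact Or.inr ⟨_, _, _, k347⟩
  · exact Or.inr ⟨_, _, _, k348⟩
  · exact Or.inr ⟨_, _, _, k349⟩
  · exact Or.inr ⟨_, _, _, k350⟩
  · exact Or.inr ⟨_, _, _, k351⟩
  · exact Or.inr ⟨_, _, _, k352⟩
  · exact Or.inr ⟨_, _, _, k353⟩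
  · exact Or.inr ⟨_, _, _, k354⟩
  · exact Or.inr ⟨_, _, _, k355⟩
  · exact Or.inr ⟨_, _, _, k356⟩
  · exact Or.inr ⟨_, _, _, k357⟩
  · exact Or.inr ⟨_, _, _, k358⟩
  · exact Or.inr ⟨_, _, _, k359⟩
  · exact Or.inr ⟨_, _, _, k360⟩
  · exact Or.inr ⟨_, _, _, k361⟩
  · exact Or.inr ⟨_, _, _, k362⟩
  · exact Or.inr ⟨_, _, _, k363⟩
  · exact Or.inr ⟨_, _, _, k364⟩
  · exact Or.inr ⟨_, _, _, k365⟩
  · exact Or.inr ⟨_, _, _, k366⟩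
  · exact Or.inr ⟨_, _, _, k367⟩
  · exact Or.inr ⟨_, _, _, k368⟩
  · exact Or.inr ⟨_, _, _, k369⟩
  · exact Or.inr ⟨_, _, _, k370⟩
  · exact Or.inr ⟨_, _, _, k371⟩
  · exact Or.inr ⟨_, _, _, k372⟩
  · exact Or.inr ⟨_, _, _, k373⟩
  · exact Or.inr ⟨_, _, _, k374⟩
  · exact Or.inr ⟨_, _, _, k375⟩
  · exact Or.inr ⟨_, _, _, k376⟩
  · exact Or.inr ⟨_, _, _, k377⟩
  · exact Or.inr ⟨_, _, _, k378⟩
  · exact Or.inr ⟨_, _, _, k379⟩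
  · exact Or.inr ⟨_, _, _, k380⟩
  · exact Or.inr ⟨_, _, _, k381⟩
  · exact Or.inr ⟨_, _, _, k382⟩
  · exact Or.inr ⟨_, _, _, k383⟩
  · exact Or.inr ⟨_, _, _, k384⟩
  · exact Or.inr ⟨_, _, _, k385⟩
  · exact Or.inr ⟨_, _, _, k386⟩
  · exact Or.inr ⟨_, _, _, k387⟩
  · exact Or.inr ⟨_, _, _, k388⟩
  · exact Or.inr ⟨_, _, _, k389⟩
  · exact Or.inr ⟨_, _, _, k390⟩
  · exact Or.inr ⟨_, _, _, k391⟩
  · exact Or.inr ⟨_, _, _, k392⟩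
  · exact Or.inr ⟨_, _, _, k393⟩
  · exact Or.inr ⟨_, _, _, k394⟩
  · exact Or.inr ⟨_, _, _, k395⟩
  · exact Or.inr ⟨_, _, _, k396⟩
  · exact Or.inr ⟨_, _, _, k397⟩
  · exact Or.inr ⟨_, _, _, k398⟩
  · exact Or.inr ⟨_, _, _, k399⟩

end SYC
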