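import Pool.Agent.SYC.C69
import Pool.Agent.SYC.C70
import Pool.Agent.SYC.C71
import Pool.Agent.SYC.C72
import Pool.Agent.SYC.C73
import Pool.Agent.SYC.C74
import Pool.Agent.SYC.C75
import Pool.Agent.SYC.C76
import Pool.Agent.SYC.C77
import Pool.Agent.SYC.C78
import Pool.Agent.SYC.C79
import Pool.Agent.SYC.C80
import Pool.Agent.SYC.C81
import Pool.Agent.SYC.C82
import Pool.Agent.SYC.C83
import Pool.Agent.SYC.C84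
import Pool.Agent.SYC.C85
import Pool.Agent.SYC.C86
import Pool.Agent.SYC.C87
import Pool.Agent.Rpr.Inp
set_option autoImplicit false
set_option maxRecDepth 1000000
set_option linter.all false

namespace SYC

open Rpr

theorem rng4 : ∀ j, 400 ≤ j → j < 500 → OKc TB QT 9274 PR 80 SY3F.gen9f SY3F.valid9f j := by
  intro j h1 h2
  interval_cases j
  · exact Or.inr ⟨_, _, _, k400⟩
  · exact Or.inr ⟨_, _, _, k401⟩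
  · exact Or.inr ⟨_, _, _, k402⟩
  · exact Or.inr ⟨_, _, _, k403⟩
  · exact Or.inr ⟨_, _, _, k404⟩
  · exact Or.inr ⟨_, _, _, k405⟩
  · exact Or.inr ⟨_, _, _, k406⟩
  · exact Or.inr ⟨_, _, _, k407⟩
  · exact Or.inr ⟨_, _, _, k408⟩
  · exact Or.inr ⟨_, _, _, k409⟩
  · exact Or.inr ⟨_, _, _, k410⟩
  · exact Or.inr ⟨_, _, _, k411⟩
  · exact Or.inr ⟨_, _, _, k412⟩
  · exact Or.inr ⟨_, _, _, k413⟩
  · exact Or.inr ⟨_, _, _, k414⟩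
  · exact Or.inr ⟨_, _, _, k415⟩
  · exact Or.inr ⟨_, _, _, k416⟩
  · exact Or.inr ⟨_, _, _, k417⟩
  · exact Or.inr ⟨_, _, _, k418⟩
  · exact Or.inr ⟨_, _, _, k419⟩
  · exact Or.inr ⟨_, _, _, k420⟩
  · exact Or.inr ⟨_, _, _, k421⟩
  · exact Or.inr ⟨_, _, _, k422⟩
  · exact Or.inr ⟨_, _, _, k423⟩
  · exact Or.inr ⟨_, _, _, k424⟩
  · exact Or.inr ⟨_, _, _, k425⟩
  · exact Or.inr ⟨_, _, _, k426⟩
  · exact Or.inr ⟨_, _, _, k427⟩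
  · exact Or.inr ⟨_, _, _, k428⟩
  · exact Or.inr ⟨_, _, _, k429⟩
  · exact Or.inr ⟨_, _, _, k430⟩
  · exact Or.inr ⟨_, _, _, k431⟩
  · exact Or.inr ⟨_, _, _, k432⟩
  · exact Or.inr ⟨_, _, _, k433⟩
  · exact Or.inr ⟨_, _, _, k434⟩
  · exact Or.inr ⟨_, _, _, k435⟩
  · exact Or.inr ⟨_, _, _, k436⟩
  · exact Or.inr ⟨_, _, _, k437⟩
  · exact Or.inr ⟨_, _, _, k438⟩
  · exact Or.inr ⟨_, _, _, k439⟩
  · exact Or.inr ⟨_, _, _, k440⟩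
  · exact Or.inr ⟨_, _, _, k441⟩
  · exact Or.inr ⟨_, _, _, k442⟩
  · exact Or.inr ⟨_, _, _, k443⟩
  · exact Or.inr ⟨_, _, _, k444⟩
  · exact Or.inr ⟨_, _, _, k445⟩
  · exact Or.inr ⟨_, _, _, k446⟩
  · exact Or.inr ⟨_, _, _, k447⟩
  · exact Or.inr ⟨_, _, _, k448⟩
  · exact Or.inr ⟨_, _, _, k449⟩
  · exact Or.inr ⟨_, _, _, k450⟩
  · exact Or.inr ⟨_, _, _, k451⟩
  · exact Or.inr ⟨_, _, _, k452⟩
  · exact Or.inr ⟨_, _, _, k453⟩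
  · exact Or.inr ⟨_, _, _, k454⟩
  · exact Or.inr ⟨_, _, _, k455⟩
  · exact Or.inr ⟨_, _, _, k456⟩
  · exact Or.inr ⟨_, _, _, k457⟩
  · exact Or.inr ⟨_, _, _, k458⟩
  · exact Or.inr ⟨_, _, _, k459⟩
  · exact Or.inr ⟨_, _, _, k460⟩
  · exact Or.inr ⟨_, _, _, k461⟩
  · exact Or.inr ⟨_, _, _, k462⟩
  · exact Or.inr ⟨_, _, _, k463⟩
  · exact Or.inr ⟨_, _, _, k464⟩
  · exact Or.inr ⟨_, _, _, k465⟩
  · exact Or.inr ⟨_, _, _, k466⟩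
  · exact Or.inr ⟨_, _, _, k467⟩
  · exact Or.inr ⟨_, _, _, k468⟩
  · exact Or.inr ⟨_, _, _, k469⟩
  · exact Or.inr ⟨_, _, _, k470⟩
  · exact Or.inr ⟨_, _, _, k471⟩
  · exact Or.inr ⟨_, _, _, k472⟩
  · exact Or.inr ⟨_, _, _, k473⟩
  · exact Or.inr ⟨_, _, _, k474⟩
  · exact Or.inr ⟨_, _, _, k475⟩
  · exact Or.inr ⟨_, _, _, k476⟩
  · exact Or.inr ⟨_, _, _, k477⟩
  · exact Or.inr ⟨_, _, _, k478⟩
  · exact Or.inr ⟨_, _, _, k479⟩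
  · exact Or.inr ⟨_, _, _, k480⟩
  · exact Or.inr ⟨_, _, _, k481⟩
  · exact Or.inr ⟨_, _, _, k482⟩
  · exact Or.inr ⟨_, _, _, k483⟩
  · exact Or.inr ⟨_, _, _, k484⟩
  · exact Or.inr ⟨_, _, _, k485⟩
  · exact Or.inr ⟨_, _, _, k486⟩
  · exact Or.inr ⟨_, _, _, k487⟩
  · exact Or.inr ⟨_, _, _, k488⟩
  · exact Or.inr ⟨_, _, _, k489⟩
  · exact Or.inr ⟨_, _, _, k490⟩
  · exact Or.inr ⟨_, _, _, k491⟩
  · exact Or.inr ⟨_, _, _, k492⟩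
  · exact Or.inr ⟨_, _, _, k493⟩
  · exact Or.inr ⟨_, _, _, k494⟩
  · exact Or.inr ⟨_, _, _, k495⟩
  · exact Or.inr ⟨_, _, _, k496⟩
  · exact Or.inr ⟨_, _, _, k497⟩
  · exact Or.inr ⟨_, _, _, k498⟩
  · exact Or.inr ⟨_, _, _, k499⟩

end SYC
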