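import Pool.Agent.SYC.C88
import Pool.Agent.SYC.C89
import Pool.Agent.SYC.C90
import Pool.Agent.SYC.C91
import Pool.Agent.SYC.C92
import Pool.Agent.SYC.C93
import Pool.Agent.SYC.C94
import Pool.Agent.SYC.C95
import Pool.Agent.SYC.C96
import Pool.Agent.SYC.C97
import Pool.Agent.SYC.C98
import Pool.Agent.SYC.C99
import Pool.Agent.SYC.C100
import Pool.Agent.SYC.C101
import Pool.Agent.SYC.C102
import Pool.Agent.SYC.C103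
import Pool.Agent.SYC.C104
import Pool.Agent.SYC.C105
import Pool.Agent.Rpr.Inp
set_option autoImplicit false
set_option maxRecDepth 1000000
set_option linter.all false

namespace SYC

open Rpr

theorem rng5 : ∀ j, 500 ≤ j → j < 600 → OKc TB QT 9274 PR 80 SY3F.gen9f SY3F.valid9f j := by
  intro j h1 h2
  interval_cases j
  · exact Or.inr ⟨_, _, _, k500⟩
  · exact Or.inr ⟨_, _, _, k501⟩
  · exact Or.inr ⟨_, _, _, k502⟩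
  · exact Or.inr ⟨_, _, _, k503⟩
  · exact Or.inr ⟨_, _, _, k504⟩
  · exact Or.inr ⟨_, _, _, k505⟩
  · exact Or.inr ⟨_, _, _, k506⟩
  · exact Or.inr ⟨_, _, _, k507⟩
  · exact Or.inr ⟨_, _, _, k508⟩
  · exact Or.inr ⟨_, _, _, k509⟩
  · exact Or.inr ⟨_, _, _, k510⟩
  · exact Or.inr ⟨_, _, _, k511⟩
  · exact Or.inr ⟨_, _, _, k512⟩
  · exact Or.inr ⟨_, _, _, k513⟩
  · exact Or.inr ⟨_, _, _, k514⟩
  · exact Or.inr ⟨_, _, _, k515⟩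
  · exact Or.inr ⟨_, _, _, k516⟩
  · exact Or.inr ⟨_, _, _, k517⟩
  · exact Or.inr ⟨_, _, _, k518⟩
  · exact Or.inr ⟨_, _, _, k519⟩
  · exact Or.inr ⟨_, _, _, k520⟩
  · exact Or.inr ⟨_, _, _, k521⟩
  · exact Or.inr ⟨_, _, _, k522⟩
  · exact Or.inr ⟨_, _, _, k523⟩
  · exact Or.inr ⟨_, _, _, k524⟩
  · exact Or.inr ⟨_, _, _, k525⟩
  · exact Or.inr ⟨_, _, _, k526⟩
  · exact Or.inr ⟨_, _, _, k527⟩
  · exact Or.inr ⟨_, _, _, k528⟩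
  · exact Or.inr ⟨_, _, _, k529⟩
  · exact Or.inr ⟨_, _, _, k530⟩
  · exact Or.inr ⟨_, _, _, k531⟩
  · exact Or.inr ⟨_, _, _, k532⟩
  · exact Or.inr ⟨_, _, _, k533⟩
  · exact Or.inr ⟨_, _, _, k534⟩
  · exact Or.inr ⟨_, _, _, k535⟩
  · exact Or.inr ⟨_, _, _, k536⟩
  · exact Or.inr ⟨_, _, _, k537⟩
  · exact Or.inr ⟨_, _, _, k538⟩
  · exact Or.inr ⟨_, _, _, k539⟩
  · exact Or.inr ⟨_, _, _, k540⟩
  · exact Or.inr ⟨_, _, _, k541⟩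
  · exact Or.inr ⟨_, _, _, k542⟩
  · exact Or.inr ⟨_, _, _, k543⟩
  · exact Or.inr ⟨_, _, _, k544⟩
  · exact Or.inr ⟨_, _, _, k545⟩
  · exact Or.inr ⟨_, _, _, k546⟩
  · exact Or.inr ⟨_, _, _, k547⟩
  · exact Or.inr ⟨_, _, _, k548⟩
  · exact Or.inr ⟨_, _, _, k549⟩
  · exact Or.inr ⟨_, _, _, k550⟩
  · exact Or.inr ⟨_, _, _, k551⟩
  · exact Or.inr ⟨_, _, _, k552⟩
  · exact Or.inr ⟨_, _, _, k553⟩
  · exact Or.inr ⟨_, _, _, k554⟩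
  · exact Or.inr ⟨_, _, _, k555⟩
  · exact Or.inr ⟨_, _, _, k556⟩
  · exact Or.inr ⟨_, _, _, k557⟩
  · exact Or.inr ⟨_, _, _, k558⟩
  · exact Or.inr ⟨_, _, _, k559⟩
  · exact Or.inr ⟨_, _, _, k560⟩
  · exact Or.inr ⟨_, _, _, k561⟩
  · exact Or.inr ⟨_, _, _, k562⟩
  · exact Or.inr ⟨_, _, _, k563⟩
  · exact Or.inr ⟨_, _, _, k564⟩
  · exact Or.inr ⟨_, _, _, k565⟩
  · exact Or.inr ⟨_, _, _, k566⟩
  · exact Or.inr ⟨_, _, _, k567⟩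
  · exact Or.inr ⟨_, _, _, k568⟩
  · exact Or.inr ⟨_, _, _, k569⟩
  · exact Or.inr ⟨_, _, _, k570⟩
  · exact Or.inr ⟨_, _, _, k571⟩
  · exact Or.inr ⟨_, _, _, k572⟩
  · exact Or.inr ⟨_, _, _, k573⟩
  · exact Or.inr ⟨_, _, _, k574⟩
  · exact Or.inr ⟨_, _, _, k575⟩
  · exact Or.inr ⟨_, _, _, k576⟩
  · exact Or.inr ⟨_, _, _, k577⟩
  · exact Or.inr ⟨_, _, _, k578⟩
  · exact Or.inr ⟨_, _, _, k579⟩
  · exact Or.inr ⟨_, _, _, k580⟩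
  · exact Or.inr ⟨_, _, _, k581⟩
  · exact Or.inr ⟨_, _, _, k582⟩
  · exact Or.inr ⟨_, _, _, k583⟩
  · exact Or.inr ⟨_, _, _, k584⟩
  · exact Or.inr ⟨_, _, _, k585⟩
  · exact Or.inr ⟨_, _, _, k586⟩
  · exact Or.inr ⟨_, _, _, k587⟩
  · exact Or.inr ⟨_, _, _, k588⟩
  · exact Or.inr ⟨_, _, _, k589⟩
  · exact Or.inr ⟨_, _, _, k590⟩
  · exact Or.inr ⟨_, _, _, k591⟩
  · exact Or.inr ⟨_, _, _, k592⟩
  · exact Or.inr ⟨_, _, _, k593⟩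
  · exact Or.inr ⟨_, _, _, k594⟩
  · exact Or.inr ⟨_, _, _, k595⟩
  · exact Or.inr ⟨_, _, _, k596⟩
  · exact Or.inr ⟨_, _, _, k597⟩
  · exact Or.inr ⟨_, _, _, k598⟩
  · exact Or.inr ⟨_, _, _, k599⟩

end SYC
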