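import Pool.Agent.SYC.C105
import Pool.Agent.SYC.C106
import Pool.Agent.SYC.C107
import Pool.Agent.SYC.C108
import Pool.Agent.SYC.C109
import Pool.Agent.SYC.C110
import Pool.Agent.SYC.C111
import Pool.Agent.SYC.C112
import Pool.Agent.SYC.C113
import Pool.Agent.SYC.C114
import Pool.Agent.SYC.C115
import Pool.Agent.SYC.C116
import Pool.Agent.SYC.C117
import Pool.Agent.SYC.C118
import Pool.Agent.SYC.C119
import Pool.Agent.SYC.C120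
import Pool.Agent.SYC.C121
import Pool.Agent.Rpr.Inp
set_option autoImplicit false
set_option maxRecDepth 1000000
set_option linter.all false

namespace SYC

open Rpr

theorem rng6 : ∀ j, 600 ≤ j → j < 700 → OKc TB QT 9274 PR 80 SY3F.gen9f SY3F.valid9f j := by
  intro j h1 h2
  interval_cases j
  · exact Or.inr ⟨_, _, _, k600⟩
  · exact Or.inr ⟨_, _, _, k601⟩
  · exact Or.inr ⟨_, _, _, k602⟩
  · exact Or.inr ⟨_, _, _, k603⟩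
  · exact Or.inr ⟨_, _, _, k604⟩
  · exact Or.inr ⟨_, _, _, k605⟩
  · exact Or.inr ⟨_, _, _, k606⟩
  · exact Or.inr ⟨_, _, _, k607⟩
  · exact Or.inr ⟨_, _, _, k608⟩
  · exact Or.inr ⟨_, _, _, k609⟩
  · exact Or.inr ⟨_, _, _, k610⟩
  · exact Or.inr ⟨_, _, _, k611⟩
  · exact Or.inr ⟨_, _, _, k612⟩
  · exact Or.inr ⟨_, _, _, k613⟩
  · exact Or.inr ⟨_, _, _, k614⟩
  · exact Or.inr ⟨_, _, _, k615⟩
  · exact Or.inr ⟨_, _, _, k616⟩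
  · exact Or.inr ⟨_, _, _, k617⟩
  · exact Or.inr ⟨_, _, _, k618⟩
  · exact Or.inr ⟨_, _, _, k619⟩
  · exact Or.inr ⟨_, _, _, k620⟩
  · exact Or.inr ⟨_, _, _, k621⟩
  · exact Or.inr ⟨_, _, _, k622⟩
  · exact Or.inr ⟨_, _, _, k623⟩
  · exact Or.inr ⟨_, _, _, k624⟩
  · exact Or.inr ⟨_, _, _, k625⟩
  · exact Or.inr ⟨_, _, _, k626⟩
  · exact Or.inr ⟨_, _, _, k627⟩
  · exact Or.inr ⟨_, _, _, k628⟩
  · exact Or.inr ⟨_, _, _, k629⟩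
  · exact Or.inr ⟨_, _, _, k630⟩
  · exact Or.inr ⟨_, _, _, k631⟩
  · exact Or.inr ⟨_, _, _, k632⟩
  · exact Or.inr ⟨_, _, _, k633⟩
  · exact Or.inr ⟨_, _, _, k634⟩
  · exact Or.inr ⟨_, _, _, k635⟩
  · exact Or.inr ⟨_, _, _, k636⟩
  · exact Or.inr ⟨_, _, _, k637⟩
  · exact Or.inr ⟨_, _, _, k638⟩
  · exact Or.inr ⟨_, _, _, k639⟩
  · exact Or.inr ⟨_, _, _, k640⟩
  · exact Or.inr ⟨_, _, _, k641⟩
  · exact Or.inr ⟨_, _, _, k642⟩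
  · exact Or.inr ⟨_, _, _, k643⟩
  · exact Or.inr ⟨_, _, _, k644⟩
  · exact Or.inr ⟨_, _, _, k645⟩
  · exact Or.inr ⟨_, _, _, k646⟩
  · exact Or.inr ⟨_, _, _, k647⟩
  · exact Or.inr ⟨_, _, _, k648⟩
  · exact Or.inr ⟨_, _, _, k649⟩
  · exact Or.inr ⟨_, _, _, k650⟩
  · exact Or.inr ⟨_, _, _, k651⟩
  · exact Or.inr ⟨_, _, _, k652⟩
  · exact Or.inr ⟨_, _, _, k653⟩
  · exact Or.inr ⟨_, _, _, k654⟩
  · exact Or.inr ⟨_, _, _, k655⟩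
  · exact Or.inr ⟨_, _, _, k656⟩
  · exact Or.inr ⟨_, _, _, k657⟩
  · exact Or.inr ⟨_, _, _, k658⟩
  · exact Or.inr ⟨_, _, _, k659⟩
  · exact Or.inr ⟨_, _, _, k660⟩
  · exact Or.inr ⟨_, _, _, k661⟩
  · exact Or.inr ⟨_, _, _, k662⟩
  · exact Or.inr ⟨_, _, _, k663⟩
  · exact Or.inr ⟨_, _, _, k664⟩
  · exact Or.inr ⟨_, _, _, k665⟩
  · exact Or.inr ⟨_, _, _, k666⟩
  · exact Or.inr ⟨_, _, _, k667⟩
  · exact Or.inr ⟨_, _, _, k668⟩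
  · exact Or.inr ⟨_, _, _, k669⟩
  · exact Or.inr ⟨_, _, _, k670⟩
  · exact Or.inr ⟨_, _, _, k671⟩
  · exact Or.inr ⟨_, _, _, k672⟩
  · exact Or.inr ⟨_, _, _, k673⟩
  · exact Or.inr ⟨_, _, _, k674⟩
  · exact Or.inr ⟨_, _, _, k675⟩
  · exact Or.inr ⟨_, _, _, k676⟩
  · exact Or.inr ⟨_, _, _, k677⟩
  · exact Or.inr ⟨_, _, _, k678⟩
  · exact Or.inr ⟨_, _, _, k679⟩
  · exact Or.inr ⟨_, _, _, k680⟩
  · exact Or.inr ⟨_, _, _, k681⟩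
  · exact Or.inr ⟨_, _, _, k682⟩
  · exact Or.inr ⟨_, _, _, k683⟩
  · exact Or.inr ⟨_, _, _, k684⟩
  · exact Or.inr ⟨_, _, _, k685⟩
  · exact Or.inr ⟨_, _, _, k686⟩
  · exact Or.inr ⟨_, _, _, k687⟩
  · exact Or.inr ⟨_, _, _, k688⟩
  · exact Or.inr ⟨_, _, _, k689⟩
  · exact Or.inr ⟨_, _, _, k690⟩
  · exact Or.inr ⟨_, _, _, k691⟩
  · exact Or.inr ⟨_, _, _, k692⟩
  · exact Or.inr ⟨_, _, _, k693⟩
  · exact Or.inr ⟨_, _, _, k694⟩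
  · exact Or.inr ⟨_, _, _, k695⟩
  · exact Or.inr ⟨_, _, _, k696⟩
  · exact Or.inr ⟨_, _, _, k697⟩
  · exact Or.inr ⟨_, _, _, k698⟩
  · exact Or.inr ⟨_, _, _, k699⟩

end SYC
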