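import Pool.Agent.SYC.C121
import Pool.Agent.SYC.C122
import Pool.Agent.SYC.C123
import Pool.Agent.SYC.C124
import Pool.Agent.SYC.C125
import Pool.Agent.SYC.C126
import Pool.Agent.SYC.C127
import Pool.Agent.SYC.C128
import Pool.Agent.SYC.C129
import Pool.Agent.SYC.C130
import Pool.Agent.SYC.C131
import Pool.Agent.SYC.C132
import Pool.Agent.SYC.C133
import Pool.Agent.SYC.C134
import Pool.Agent.SYC.C135
import Pool.Agent.SYC.C136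
import Pool.Agent.SYC.C137
import Pool.Agent.SYC.C138
import Pool.Agent.SYC.C139
import Pool.Agent.SYC.C140
import Pool.Agent.Rpr.Inp
set_option autoImplicit false
set_option maxRecDepth 1000000
set_option linter.all false

namespace SYC

open Rpr

theorem rng7 : ∀ j, 700 ≤ j → j < 800 → OKc TB QT 9274 PR 80 SY3F.gen9f SY3F.valid9f j := by
  intro j h1 h2
  interval_cases j
  · exact Or.inr ⟨_, _, _, k700⟩
  · exact Or.inr ⟨_, _, _, k701⟩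
  · exact Or.inr ⟨_, _, _, k702⟩
  · exact Or.inr ⟨_, _, _, k703⟩
  · exact Or.inr ⟨_, _, _, k704⟩
  · exact Or.inr ⟨_, _, _, k705⟩
  · exact Or.inr ⟨_, _, _, k706⟩
  · exact Or.inr ⟨_, _, _, k707⟩
  · exact Or.inr ⟨_, _, _, k708⟩
  · exact Or.inr ⟨_, _, _, k709⟩
  · exact Or.inr ⟨_, _, _, k710⟩
  · exact Or.inr ⟨_, _, _, k711⟩
  · exact Or.inr ⟨_, _, _, k712⟩
  · exact Or.inr ⟨_, _, _, k713⟩
  · exact Or.inr ⟨_, _, _, k714⟩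
  · exact Or.inr ⟨_, _, _, k715⟩
  · exact Or.inr ⟨_, _, _, k716⟩
  · exact Or.inr ⟨_, _, _, k717⟩
  · exact Or.inr ⟨_, _, _, k718⟩
  · exact Or.inr ⟨_, _, _, k719⟩
  · exact Or.inr ⟨_, _, _, k720⟩
  · exact Or.inr ⟨_, _, _, k721⟩
  · exact Or.inr ⟨_, _, _, k722⟩
  · exact Or.inr ⟨_, _, _, k723⟩
  · exact Or.inr ⟨_, _, _, k724⟩
  · exact Or.inr ⟨_, _, _, k725⟩
  · exact Or.inr ⟨_, _, _, k726⟩
  · exact Or.inr ⟨_, _, _, k727⟩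
  · exact Or.inr ⟨_, _, _, k728⟩
  · exact Or.inr ⟨_, _, _, k729⟩
  · exact Or.inr ⟨_, _, _, k730⟩
  · exact Or.inr ⟨_, _, _, k731⟩
  · exact Or.inr ⟨_, _, _, k732⟩
  · exact Or.inr ⟨_, _, _, k733⟩
  · exact Or.inr ⟨_, _, _, k734⟩
  · exact Or.inr ⟨_, _, _, k735⟩
  · exact Or.inr ⟨_, _, _, k736⟩
  · exact Or.inr ⟨_, _, _, k737⟩
  · exact Or.inr ⟨_, _, _, k738⟩
  · exact Or.inr ⟨_, _, _, k739⟩
  · exact Or.inr ⟨_, _, _, k740⟩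
  · exact Or.inr ⟨_, _, _, k741⟩
  · exact Or.inr ⟨_, _, _, k742⟩
  · exact Or.inr ⟨_, _, _, k743⟩
  · exact Or.inr ⟨_, _, _, k744⟩
  · exact Or.inr ⟨_, _, _, k745⟩
  · exact Or.inr ⟨_, _, _, k746⟩
  · exact Or.inr ⟨_, _, _, k747⟩
  · exact Or.inr ⟨_, _, _, k748⟩
  · exact Or.inr ⟨_, _, _, k749⟩
  · exact Or.inr ⟨_, _, _, k750⟩
  · exact Or.inr ⟨_, _, _, k751⟩
  · exact Or.inr ⟨_, _, _, k752⟩
  · exact Or.inr ⟨_, _, _, k753⟩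
  · exact Or.inr ⟨_, _, _, k754⟩
  · exact Or.inr ⟨_, _, _, k755⟩
  · exact Or.inr ⟨_, _, _, k756⟩
  · exact Or.inr ⟨_, _, _, k757⟩
  · exact Or.inr ⟨_, _, _, k758⟩
  · exact Or.inr ⟨_, _, _, k759⟩
  · exact Or.inr ⟨_, _, _, k760⟩
  · exact Or.inr ⟨_, _, _, k761⟩
  · exact Or.inr ⟨_, _, _, k762⟩
  · exact Or.inr ⟨_, _, _, k763⟩
  · exact Or.inr ⟨_, _, _, k764⟩
  · exact Or.inr ⟨_, _, _, k765⟩
  · exact Or.inr ⟨_, _, _, k766⟩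
  · exact Or.inr ⟨_, _, _, k767⟩
  · exact Or.inr ⟨_, _, _, k768⟩
  · exact Or.inr ⟨_, _, _, k769⟩
  · exact Or.inr ⟨_, _, _, k770⟩
  · exact Or.inr ⟨_, _, _, k771⟩
  · exact Or.inr ⟨_, _, _, k772⟩
  · exact Or.inr ⟨_, _, _, k773⟩
  · exact Or.inr ⟨_, _, _, k774⟩
  · exact Or.inr ⟨_, _, _, k775⟩
  · exact Or.inr ⟨_, _, _, k776⟩
  · exact Or.inr ⟨_, _, _, k777⟩
  · exact Or.inr ⟨_, _, _, k778⟩
  · exact Or.inr ⟨_, _, _, k779⟩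
  · exact Or.inr ⟨_, _, _, k780⟩
  · exact Or.inr ⟨_, _, _, k781⟩
  · exact Or.inr ⟨_, _, _, k782⟩
  · exact Or.inr ⟨_, _, _, k783⟩
  · exact Or.inr ⟨_, _, _, k784⟩
  · exact Or.inr ⟨_, _, _, k785⟩
  · exact Or.inr ⟨_, _, _, k786⟩
  · exact Or.inr ⟨_, _, _, k787⟩
  · exact Or.inr ⟨_, _, _, k788⟩
  · exact Or.inr ⟨_, _, _, k789⟩
  · exact Or.inr ⟨_, _, _, k790⟩
  · exact Or.inr ⟨_, _, _, k791⟩
  · exact Or.inr ⟨_, _, _, k792⟩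
  · exact Or.inr ⟨_, _, _, k793⟩
  · exact Or.inr ⟨_, _, _, k794⟩
  · exact Or.inr ⟨_, _, _, k795⟩
  · exact Or.inr ⟨_, _, _, k796⟩
  · exact Or.inr ⟨_, _, _, k797⟩
  · exact Or.inr ⟨_, _, _, k798⟩
  · exact Or.inr ⟨_, _, _, k799⟩

end SYC
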