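import Pool.Agent.SYC.C140
import Pool.Agent.SYC.C141
import Pool.Agent.SYC.C142
import Pool.Agent.SYC.C143
import Pool.Agent.Rpr.Inp
set_option autoImplicit false
set_option maxRecDepth 1000000
set_option linter.all false

namespace SYC

open Rpr

theorem rng8 : ∀ j, 800 ≤ j → j < 819 → OKc TB QT 9274 PR 80 SY3F.gen9f SY3F.valid9f j := by
  intro j h1 h2
  interval_cases j
  · exact Or.inr ⟨_, _, _, k800⟩
  · exact Or.inr ⟨_, _, _, k801⟩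
  · exact Or.inr ⟨_, _, _, k802⟩
  · exact Or.inr ⟨_, _, _, k803⟩
  · exact Or.inr ⟨_, _, _, k804⟩
  · exact Or.inr ⟨_, _, _, k805⟩
  · exact Or.inr ⟨_, _, _, k806⟩
  · exact Or.inr ⟨_, _, _, k807⟩
  · exact Or.inr ⟨_, _, _, k808⟩
  · exact Or.inr ⟨_, _, _, k809⟩
  · exact Or.inr ⟨_, _, _, k810⟩
  · exact Or.inr ⟨_, _, _, k811⟩
  · exact Or.inr ⟨_, _, _, k812⟩
  · exact Or.inr ⟨_, _, _, k813⟩
  · exact Or.inr ⟨_, _, _, k814⟩
  · exact Or.inr ⟨_, _, _, k815⟩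
  · exact Or.inr ⟨_, _, _, k816⟩
  · exact Or.inr ⟨_, _, _, k817⟩
  · exact Or.inr ⟨_, _, _, k818⟩

end SYC
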