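import Pool.Agent.SYC.R0
import Pool.Agent.SYC.R1
import Pool.Agent.SYC.R2
import Pool.Agent.SYC.R3
import Pool.Agent.SYC.R4
import Pool.Agent.SYC.R5
import Pool.Agent.SYC.R6
import Pool.Agent.SYC.R7
import Pool.Agent.SYC.R8
set_option autoImplicit false
set_option maxRecDepth 1000000
set_option linter.all false

namespace SYC

open Rpr

theorem all : ∀ j < 819, OKc TB QT 9274 PR 80 SY3F.gen9f SY3F.valid9f j := by
  intro j hj
  rcases Nat.lt_or_ge j 100 with h | h0
  · exact rng0 j (by omega) h
  rcases Nat.lt_or_ge j 200 with h | h1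
  · exact rng1 j (by omega) h
  rcases Nat.lt_or_ge j 300 with h | h2
  · exact rng2 j (by omega) h
  rcases Nat.lt_or_ge j 400 with h | h3
  · exact rng3 j (by omega) h
  rcases Nat.lt_or_ge j 500 with h | h4
  · exact rng4 j (by omega) h
  rcases Nat.lt_or_ge j 600 with h | h5
  · exact rng5 j (by omega) h
  rcases Nat.lt_or_ge j 700 with h | h6
  · exact rng6 j (by omega) h
  rcases Nat.lt_or_ge j 800 with h | h7
  · exact rng7 j (by omega) h
  exact rng8 j (by omega) (by omega)

theorem refut (val : ℕ → Bool)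
    (hval : ∀ g, SY3F.valid9f g = true → ∃ p ∈ SY3F.gen9f g, val p.1 = p.2) : False :=
  refuted tab_ok prod_ok hval all (j := 818) (k := 15) (by decide) (by decide +kernel)

end SYC
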