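import Pool.Agent.SYC.C0
import Pool.Agent.SYC.C1
import Pool.Agent.SYC.C2
import Pool.Agent.SYC.C3
import Pool.Agent.SYC.C4
import Pool.Agent.SYC.C5
import Pool.Agent.SYC.C6
import Pool.Agent.SYC.C7
import Pool.Agent.SYC.C8
import Pool.Agent.SYC.C9
import Pool.Agent.SYC.C10
import Pool.Agent.SYC.C11
import Pool.Agent.SYC.C12
import Pool.Agent.SYC.C13
import Pool.Agent.SYC.C14
import Pool.Agent.SYC.C15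
import Pool.Agent.SYC.C16
import Pool.Agent.SYC.C17
import Pool.Agent.SYC.C18
import Pool.Agent.Rpr.Inp
set_option autoImplicit false
set_option maxRecDepth 1000000
set_option linter.all false

namespace SYC

open Rpr

theorem rng0 : ∀ j, 0 ≤ j → j < 100 → OKc TB QT 9274 PR 80 SY3F.gen9f SY3F.valid9f j := by
  intro j h1 h2
  interval_cases j
  · exact Or.inl ⟨_, i0⟩
  · exact Or.inl ⟨_, i1⟩
  · exact Or.inl ⟨_, i2⟩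
  · exact Or.inl ⟨_, i3⟩
  · exact Or.inl ⟨_, i4⟩
  · exact Or.inl ⟨_, i5⟩
  · exact Or.inl ⟨_, i6⟩
  · exact Or.inl ⟨_, i7⟩
  · exact Or.inl ⟨_, i8⟩
  · exact Or.inl ⟨_, i9⟩
  · exact Or.inl ⟨_, i10⟩
  · exact Or.inl ⟨_, i11⟩
  · exact Or.inl ⟨_, i12⟩
  · exact Or.inl ⟨_, i13⟩
  · exact Or.inl ⟨_, i14⟩
  · exact Or.inl ⟨_, i15⟩
  · exact Or.inl ⟨_, i16⟩
  · exact Or.inl ⟨_, i17⟩
  · exact Or.inl ⟨_, i18⟩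
  · exact Or.inl ⟨_, i19⟩
  · exact Or.inl ⟨_, i20⟩
  · exact Or.inl ⟨_, i21⟩
  · exact Or.inl ⟨_, i22⟩
  · exact Or.inl ⟨_, i23⟩
  · exact Or.inl ⟨_, i24⟩
  · exact Or.inl ⟨_, i25⟩
  · exact Or.inl ⟨_, i26⟩
  · exact Or.inl ⟨_, i27⟩
  · exact Or.inl ⟨_, i28⟩
  · exact Or.inl ⟨_, i29⟩
  · exact Or.inl ⟨_, i30⟩
  · exact Or.inl ⟨_, i31⟩
  · exact Or.inl ⟨_, i32⟩
  · exact Or.inl ⟨_, i33⟩
  · exact Or.inl ⟨_, i34⟩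
  · exact Or.inl ⟨_, i35⟩
  · exact Or.inl ⟨_, i36⟩
  · exact Or.inl ⟨_, i37⟩
  · exact Or.inl ⟨_, i38⟩
  · exact Or.inl ⟨_, i39⟩
  · exact Or.inl ⟨_, i40⟩
  · exact Or.inl ⟨_, i41⟩
  · exact Or.inl ⟨_, i42⟩
  · exact Or.inl ⟨_, i43⟩
  · exact Or.inr ⟨_, _, _, k44⟩
  · exact Or.inr ⟨_, _, _, k45⟩
  · exact Or.inr ⟨_, _, _, k46⟩
  · exact Or.inr ⟨_, _, _, k47⟩
  · exact Or.inr ⟨_, _, _, k48⟩
  · exact Or.inr ⟨_, _, _, k49⟩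
  · exact Or.inr ⟨_, _, _, k50⟩
  · exact Or.inr ⟨_, _, _, k51⟩
  · exact Or.inr ⟨_, _, _, k52⟩
  · exact Or.inr ⟨_, _, _, k53⟩
  · exact Or.inr ⟨_, _, _, k54⟩
  · exact Or.inr ⟨_, _, _, k55⟩
  · exact Or.inr ⟨_, _, _, k56⟩
  · exact Or.inr ⟨_, _, _, k57⟩
  · exact Or.inr ⟨_, _, _, k58⟩
  · exact Or.inr ⟨_, _, _, k59⟩
  · exact Or.inr ⟨_, _, _, k60⟩
  · exact Or.inr ⟨_, _, _, k61⟩
  · exact Or.inr ⟨_, _, _, k62⟩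
  · exact Or.inr ⟨_, _, _, k63⟩
  · exact Or.inr ⟨_, _, _, k64⟩
  · exact Or.inr ⟨_, _, _, k65⟩
  · exact Or.inr ⟨_, _, _, k66⟩
  · exact Or.inr ⟨_, _, _, k67⟩
  · exact Or.inr ⟨_, _, _, k68⟩
  · exact Or.inr ⟨_, _, _, k69⟩
  · exact Or.inr ⟨_, _, _, k70⟩
  · exact Or.inr ⟨_, _, _, k71⟩
  · exact Or.inr ⟨_, _, _, k72⟩
  · exact Or.inr ⟨_, _, _, k73⟩
  · exact Or.inr ⟨_, _, _, k74⟩
  · exact Or.inr ⟨_, _, _, k75⟩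
  · exact Or.inr ⟨_, _, _, k76⟩
  · exact Or.inr ⟨_, _, _, k77⟩
  · exact Or.inr ⟨_, _, _, k78⟩
  · exact Or.inr ⟨_, _, _, k79⟩
  · exact Or.inr ⟨_, _, _, k80⟩
  · exact Or.inr ⟨_, _, _, k81⟩
  · exact Or.inr ⟨_, _, _, k82⟩
  · exact Or.inr ⟨_, _, _, k83⟩
  · exact Or.inr ⟨_, _, _, k84⟩
  · exact Or.inr ⟨_, _, _, k85⟩
  · exact Or.inr ⟨_, _, _, k86⟩
  · exact Or.inr ⟨_, _, _, k87⟩
  · exact Or.inr ⟨_, _, _, k88⟩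
  · exact Or.inr ⟨_, _, _, k89⟩
  · exact Or.inr ⟨_, _, _, k90⟩
  · exact Or.inr ⟨_, _, _, k91⟩
  · exact Or.inr ⟨_, _, _, k92⟩
  · exact Or.inr ⟨_, _, _, k93⟩
  · exact Or.inr ⟨_, _, _, k94⟩
  · exact Or.inr ⟨_, _, _, k95⟩
  · exact Or.inr ⟨_, _, _, k96⟩
  · exact Or.inr ⟨_, _, _, k97⟩
  · exact Or.inr ⟨_, _, _, k98⟩
  · exact Or.inr ⟨_, _, _, k99⟩

end SYC
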