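import Pool.Agent.SYC.D0
import Pool.Agent.SYC.D1
import Pool.Agent.SYC.D2
import Pool.Agent.SYC.D3
import Pool.Agent.SYC.D4
import Pool.Agent.SYC.D5
import Pool.Agent.SYC.D6
import Pool.Agent.SYC.D7
import Pool.Agent.SYC.D8
import Pool.Agent.SYC.Tab
set_option autoImplicit false
set_option maxRecDepth 1000000
set_option linter.all false

namespace SYC

open Rpr

noncomputable def TB : Tr := (.node (.node (.node (.node (.node (.node (.node (.node (.node (.node (.leaf X0) (.leaf X512)) (.node (.leaf X256) (.leaf X768))) (.node (.node (.leaf X128) (.leaf X640)) (.node (.leaf X384) .E))) (.node (.node (.node (.leaf X64) (.leaf X576)) (.node (.leaf X320) .E)) (.node (.node (.leaf X192) (.leaf X704)) (.node (.leaf X448) .E)))) (.node (.node (.node (.node (.leaf X32) (.leaf X544)) (.node (.leaf X288) (.leaf X800))) (.node (.node (.leaf X160) (.leaf X672)) (.node (.leaf X416) .E))) (.node (.node (.node (.leaf X96) (.leaf X608)) (.node (.leaf X352) .E)) (.node (.node (.leaf X224) (.leaf X736)) (.node (.leaf X480) .E))))) (.node (.node (.node (.node (.node (.leaf X16)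 (.leaf X528)) (.node (.leaf X272) (.leaf X784))) (.node (.node (.leaf X144) (.leaf X656)) (.node (.leaf X400) .E))) (.node (.node (.node (.leaf X80) (.leaf X592)) (.node (.leaf X336) .E)) (.node (.node (.leaf X208) (.leaf X720)) (.node (.leaf X464) .E)))) (.node (.node (.node (.node (.leaf X48) (.leaf X560)) (.node (.leaf X304) (.leaf X816))) (.node (.node (.leaf X176) (.leaf X688)) (.node (.leaf X432) .E))) (.node (.node (.node (.leaf X112) (.leaf X624)) (.node (.leaf X368) .E)) (.node (.node (.leaf X240) (.leaf X752)) (.node (.leaf X496) .E)))))) (.node (.node (.node (.node (.node (.node (.leaf X8) (.leaf X520)) (.node (.leaf X264) (.leaf X776))) (.node (.node (.leaf X136) (.leaf X648)) (.node (.leaf X392) .E))) (.node (.node (.node (.leaf X72) (.leaf X584)) (.node (.leaf X328) .E)) (.node (.node (.leaf X200) (.leaf X712)) (.node (.leaf X456) .E)))) (.node (.node (.node (.node (.leaf X40) (.leaf X552)) (.node (.leaf X296) (.leaf X808))) (.node (.node (.leaf X168) (.leaf X680)) (.node (.leaf X424) .E))) (.node (.node (.node (.leaf X104) (.leaf X616)) (.node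 (.leaf X360) .E)) (.node (.node (.leaf X232) (.leaf X744)) (.node (.leaf X488) .E))))) (.node (.node (.node (.node (.node (.leaf X24) (.leaf X536)) (.node (.leaf X280) (.leaf X792))) (.node (.node (.leaf X152) (.leaf X664)) (.node (.leaf X408) .E))) (.node (.node (.node (.leaf X88) (.leaf X600)) (.node (.leaf X344) .E)) (.node (.node (.leaf X216) (.leaf X728)) (.node (.leaf X472) .E)))) (.node (.node (.node (.node (.leaf X56) (.leaf X568)) (.node (.leaf X312) .E)) (.node (.node (.leaf X184) (.leaf X696)) (.node (.leaf X440) .E))) (.node (.node (.node (.leaf X120) (.leaf X632)) (.node (.leaf X376) .E)) (.node (.node (.leaf X248) (.leaf X760)) (.node (.leaf X504) .E))))))) (.node (.node (.node (.node (.node (.node (.node (.leaf X4) (.leaf X516)) (.node (.leaf X260) (.leaf X772))) (.node (.node (.leaf X132) (.leaf X644)) (.node (.leaf X388) .E))) (.node (.node (.node (.leaf X68) (.leaf X580)) (.node (.leaf X324) .E)) (.node (.node (.leaf X196) (.leaf X708)) (.node (.leaf X452) .E)))) (.node (.node (.node (.node (.leaf X36) (.leaf X548)) (.node (.leaf X292) (.leaf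 X804))) (.node (.node (.leaf X164) (.leaf X676)) (.node (.leaf X420) .E))) (.node (.node (.node (.leaf X100) (.leaf X612)) (.node (.leaf X356) .E)) (.node (.node (.leaf X228) (.leaf X740)) (.node (.leaf X484) .E))))) (.node (.node (.node (.node (.node (.leaf X20) (.leaf X532)) (.node (.leaf X276) (.leaf X788))) (.node (.node (.leaf X148) (.leaf X660)) (.node (.leaf X404) .E))) (.node (.node (.node (.leaf X84) (.leaf X596)) (.node (.leaf X340) .E)) (.node (.node (.leaf X212) (.leaf X724)) (.node (.leaf X468) .E)))) (.node (.node (.node (.node (.leaf X52) (.leaf X564)) (.node (.leaf X308) .E)) (.node (.node (.leaf X180) (.leaf X692)) (.node (.leaf X436) .E))) (.node (.node (.node (.leaf X116) (.leaf X628)) (.node (.leaf X372) .E)) (.node (.node (.leaf X244) (.leaf X756)) (.node (.leaf X500) .E)))))) (.node (.node (.node (.node (.node (.node (.leaf X12) (.leaf X524)) (.node (.leaf X268) (.leaf X780))) (.node (.node (.leaf X140) (.leaf X652)) (.node (.leaf X396) .E))) (.node (.node (.node (.leaf X76) (.leaf X588)) (.node (.leaf X332) .E)) (.node (.node (.leaf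 X204) (.leaf X716)) (.node (.leaf X460) .E)))) (.node (.node (.node (.node (.leaf X44) (.leaf X556)) (.node (.leaf X300) (.leaf X812))) (.node (.node (.leaf X172) (.leaf X684)) (.node (.leaf X428) .E))) (.node (.node (.node (.leaf X108) (.leaf X620)) (.node (.leaf X364) .E)) (.node (.node (.leaf X236) (.leaf X748)) (.node (.leaf X492) .E))))) (.node (.node (.node (.node (.node (.leaf X28) (.leaf X540)) (.node (.leaf X284) (.leaf X796))) (.node (.node (.leaf X156) (.leaf X668)) (.node (.leaf X412) .E))) (.node (.node (.node (.leaf X92) (.leaf X604)) (.node (.leaf X348) .E)) (.node (.node (.leaf X220) (.leaf X732)) (.node (.leaf X476) .E)))) (.node (.node (.node (.node (.leaf X60) (.leaf X572)) (.node (.leaf X316) .E)) (.node (.node (.leaf X188) (.leaf X700)) (.node (.leaf X444) .E))) (.node (.node (.node (.leaf X124) (.leaf X636)) (.node (.leaf X380) .E)) (.node (.node (.leaf X252) (.leaf X764)) (.node (.leaf X508) .E)))))))) (.node (.node (.node (.node (.node (.node (.node (.node (.leaf X2) (.leaf X514)) (.node (.leaf X258) (.leaf X770))) (.node (.node (.leaf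 X130) (.leaf X642)) (.node (.leaf X386) .E))) (.node (.node (.node (.leaf X66) (.leaf X578)) (.node (.leaf X322) .E)) (.node (.node (.leaf X194) (.leaf X706)) (.node (.leaf X450) .E)))) (.node (.node (.node (.node (.leaf X34) (.leaf X546)) (.node (.leaf X290) (.leaf X802))) (.node (.node (.leaf X162) (.leaf X674)) (.node (.leaf X418) .E))) (.node (.node (.node (.leaf X98) (.leaf X610)) (.node (.leaf X354) .E)) (.node (.node (.leaf X226) (.leaf X738)) (.node (.leaf X482) .E))))) (.node (.node (.node (.node (.node (.leaf X18) (.leaf X530)) (.node (.leaf X274) (.leaf X786))) (.node (.node (.leaf X146) (.leaf X658)) (.node (.leaf X402) .E))) (.node (.node (.node (.leaf X82) (.leaf X594)) (.node (.leaf X338) .E)) (.node (.node (.leaf X210) (.leaf X722)) (.node (.leaf X466) .E)))) (.node (.node (.node (.node (.leaf X50) (.leaf X562)) (.node (.leaf X306) (.leaf X818))) (.node (.node (.leaf X178) (.leaf X690)) (.node (.leaf X434) .E))) (.node (.node (.node (.leaf X114) (.leaf X626)) (.node (.leaf X370) .E)) (.node (.node (.leaf X242) (.leaf X754)) (.node (.leaf X498)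 .E)))))) (.node (.node (.node (.node (.node (.node (.leaf X10) (.leaf X522)) (.node (.leaf X266) (.leaf X778))) (.node (.node (.leaf X138) (.leaf X650)) (.node (.leaf X394) .E))) (.node (.node (.node (.leaf X74) (.leaf X586)) (.node (.leaf X330) .E)) (.node (.node (.leaf X202) (.leaf X714)) (.node (.leaf X458) .E)))) (.node (.node (.node (.node (.leaf X42) (.leaf X554)) (.node (.leaf X298) (.leaf X810))) (.node (.node (.leaf X170) (.leaf X682)) (.node (.leaf X426) .E))) (.node (.node (.node (.leaf X106) (.leaf X618)) (.node (.leaf X362) .E)) (.node (.node (.leaf X234) (.leaf X746)) (.node (.leaf X490) .E))))) (.node (.node (.node (.node (.node (.leaf X26) (.leaf X538)) (.node (.leaf X282) (.leaf X794))) (.node (.node (.leaf X154) (.leaf X666)) (.node (.leaf X410) .E))) (.node (.node (.node (.leaf X90) (.leaf X602)) (.node (.leaf X346) .E)) (.node (.node (.leaf X218) (.leaf X730)) (.node (.leaf X474) .E)))) (.node (.node (.node (.node (.leaf X58) (.leaf X570)) (.node (.leaf X314) .E)) (.node (.node (.leaf X186) (.leaf X698)) (.node (.leaf X442) .E))) (.node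 (.node (.node (.leaf X122) (.leaf X634)) (.node (.leaf X378) .E)) (.node (.node (.leaf X250) (.leaf X762)) (.node (.leaf X506) .E))))))) (.node (.node (.node (.node (.node (.node (.node (.leaf X6) (.leaf X518)) (.node (.leaf X262) (.leaf X774))) (.node (.node (.leaf X134) (.leaf X646)) (.node (.leaf X390) .E))) (.node (.node (.node (.leaf X70) (.leaf X582)) (.node (.leaf X326) .E)) (.node (.node (.leaf X198) (.leaf X710)) (.node (.leaf X454) .E)))) (.node (.node (.node (.node (.leaf X38) (.leaf X550)) (.node (.leaf X294) (.leaf X806))) (.node (.node (.leaf X166) (.leaf X678)) (.node (.leaf X422) .E))) (.node (.node (.node (.leaf X102) (.leaf X614)) (.node (.leaf X358) .E)) (.node (.node (.leaf X230) (.leaf X742)) (.node (.leaf X486) .E))))) (.node (.node (.node (.node (.node (.leaf X22) (.leaf X534)) (.node (.leaf X278) (.leaf X790))) (.node (.node (.leaf X150) (.leaf X662)) (.node (.leaf X406) .E))) (.node (.node (.node (.leaf X86) (.leaf X598)) (.node (.leaf X342) .E)) (.node (.node (.leaf X214) (.leaf X726)) (.node (.leaf X470) .E)))) (.node (.node (.node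 (.node (.leaf X54) (.leaf X566)) (.node (.leaf X310) .E)) (.node (.node (.leaf X182) (.leaf X694)) (.node (.leaf X438) .E))) (.node (.node (.node (.leaf X118) (.leaf X630)) (.node (.leaf X374) .E)) (.node (.node (.leaf X246) (.leaf X758)) (.node (.leaf X502) .E)))))) (.node (.node (.node (.node (.node (.node (.leaf X14) (.leaf X526)) (.node (.leaf X270) (.leaf X782))) (.node (.node (.leaf X142) (.leaf X654)) (.node (.leaf X398) .E))) (.node (.node (.node (.leaf X78) (.leaf X590)) (.node (.leaf X334) .E)) (.node (.node (.leaf X206) (.leaf X718)) (.node (.leaf X462) .E)))) (.node (.node (.node (.node (.leaf X46) (.leaf X558)) (.node (.leaf X302) (.leaf X814))) (.node (.node (.leaf X174) (.leaf X686)) (.node (.leaf X430) .E))) (.node (.node (.node (.leaf X110) (.leaf X622)) (.node (.leaf X366) .E)) (.node (.node (.leaf X238) (.leaf X750)) (.node (.leaf X494) .E))))) (.node (.node (.node (.node (.node (.leaf X30) (.leaf X542)) (.node (.leaf X286) (.leaf X798))) (.node (.node (.leaf X158) (.leaf X670)) (.node (.leaf X414) .E))) (.node (.node (.node (.leaf X94)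 (.leaf X606)) (.node (.leaf X350) .E)) (.node (.node (.leaf X222) (.leaf X734)) (.node (.leaf X478) .E)))) (.node (.node (.node (.node (.leaf X62) (.leaf X574)) (.node (.leaf X318) .E)) (.node (.node (.leaf X190) (.leaf X702)) (.node (.leaf X446) .E))) (.node (.node (.node (.leaf X126) (.leaf X638)) (.node (.leaf X382) .E)) (.node (.node (.leaf X254) (.leaf X766)) (.node (.leaf X510) .E))))))))) (.node (.node (.node (.node (.node (.node (.node (.node (.node (.leaf X1) (.leaf X513)) (.node (.leaf X257) (.leaf X769))) (.node (.node (.leaf X129) (.leaf X641)) (.node (.leaf X385) .E))) (.node (.node (.node (.leaf X65) (.leaf X577)) (.node (.leaf X321) .E)) (.node (.node (.leaf X193) (.leaf X705)) (.node (.leaf X449) .E)))) (.node (.node (.node (.node (.leaf X33) (.leaf X545)) (.node (.leaf X289) (.leaf X801))) (.node (.node (.leaf X161) (.leaf X673)) (.node (.leaf X417) .E))) (.node (.node (.node (.leaf X97) (.leaf X609)) (.node (.leaf X353) .E)) (.node (.node (.leaf X225) (.leaf X737)) (.node (.leaf X481) .E))))) (.node (.node (.node (.node (.node (.leaf X17)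 (.leaf X529)) (.node (.leaf X273) (.leaf X785))) (.node (.node (.leaf X145) (.leaf X657)) (.node (.leaf X401) .E))) (.node (.node (.node (.leaf X81) (.leaf X593)) (.node (.leaf X337) .E)) (.node (.node (.leaf X209) (.leaf X721)) (.node (.leaf X465) .E)))) (.node (.node (.node (.node (.leaf X49) (.leaf X561)) (.node (.leaf X305) (.leaf X817))) (.node (.node (.leaf X177) (.leaf X689)) (.node (.leaf X433) .E))) (.node (.node (.node (.leaf X113) (.leaf X625)) (.node (.leaf X369) .E)) (.node (.node (.leaf X241) (.leaf X753)) (.node (.leaf X497) .E)))))) (.node (.node (.node (.node (.node (.node (.leaf X9) (.leaf X521)) (.node (.leaf X265) (.leaf X777))) (.node (.node (.leaf X137) (.leaf X649)) (.node (.leaf X393) .E))) (.node (.node (.node (.leaf X73) (.leaf X585)) (.node (.leaf X329) .E)) (.node (.node (.leaf X201) (.leaf X713)) (.node (.leaf X457) .E)))) (.node (.node (.node (.node (.leaf X41) (.leaf X553)) (.node (.leaf X297) (.leaf X809))) (.node (.node (.leaf X169) (.leaf X681)) (.node (.leaf X425) .E))) (.node (.node (.node (.leaf X105) (.leaf X617)) (.node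 (.leaf X361) .E)) (.node (.node (.leaf X233) (.leaf X745)) (.node (.leaf X489) .E))))) (.node (.node (.node (.node (.node (.leaf X25) (.leaf X537)) (.node (.leaf X281) (.leaf X793))) (.node (.node (.leaf X153) (.leaf X665)) (.node (.leaf X409) .E))) (.node (.node (.node (.leaf X89) (.leaf X601)) (.node (.leaf X345) .E)) (.node (.node (.leaf X217) (.leaf X729)) (.node (.leaf X473) .E)))) (.node (.node (.node (.node (.leaf X57) (.leaf X569)) (.node (.leaf X313) .E)) (.node (.node (.leaf X185) (.leaf X697)) (.node (.leaf X441) .E))) (.node (.node (.node (.leaf X121) (.leaf X633)) (.node (.leaf X377) .E)) (.node (.node (.leaf X249) (.leaf X761)) (.node (.leaf X505) .E))))))) (.node (.node (.node (.node (.node (.node (.node (.leaf X5) (.leaf X517)) (.node (.leaf X261) (.leaf X773))) (.node (.node (.leaf X133) (.leaf X645)) (.node (.leaf X389) .E))) (.node (.node (.node (.leaf X69) (.leaf X581)) (.node (.leaf X325) .E)) (.node (.node (.leaf X197) (.leaf X709)) (.node (.leaf X453) .E)))) (.node (.node (.node (.node (.leaf X37) (.leaf X549)) (.node (.leaf X293) (.leaf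 X805))) (.node (.node (.leaf X165) (.leaf X677)) (.node (.leaf X421) .E))) (.node (.node (.node (.leaf X101) (.leaf X613)) (.node (.leaf X357) .E)) (.node (.node (.leaf X229) (.leaf X741)) (.node (.leaf X485) .E))))) (.node (.node (.node (.node (.node (.leaf X21) (.leaf X533)) (.node (.leaf X277) (.leaf X789))) (.node (.node (.leaf X149) (.leaf X661)) (.node (.leaf X405) .E))) (.node (.node (.node (.leaf X85) (.leaf X597)) (.node (.leaf X341) .E)) (.node (.node (.leaf X213) (.leaf X725)) (.node (.leaf X469) .E)))) (.node (.node (.node (.node (.leaf X53) (.leaf X565)) (.node (.leaf X309) .E)) (.node (.node (.leaf X181) (.leaf X693)) (.node (.leaf X437) .E))) (.node (.node (.node (.leaf X117) (.leaf X629)) (.node (.leaf X373) .E)) (.node (.node (.leaf X245) (.leaf X757)) (.node (.leaf X501) .E)))))) (.node (.node (.node (.node (.node (.node (.leaf X13) (.leaf X525)) (.node (.leaf X269) (.leaf X781))) (.node (.node (.leaf X141) (.leaf X653)) (.node (.leaf X397) .E))) (.node (.node (.node (.leaf X77) (.leaf X589)) (.node (.leaf X333) .E)) (.node (.node (.leaf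 X205) (.leaf X717)) (.node (.leaf X461) .E)))) (.node (.node (.node (.node (.leaf X45) (.leaf X557)) (.node (.leaf X301) (.leaf X813))) (.node (.node (.leaf X173) (.leaf X685)) (.node (.leaf X429) .E))) (.node (.node (.node (.leaf X109) (.leaf X621)) (.node (.leaf X365) .E)) (.node (.node (.leaf X237) (.leaf X749)) (.node (.leaf X493) .E))))) (.node (.node (.node (.node (.node (.leaf X29) (.leaf X541)) (.node (.leaf X285) (.leaf X797))) (.node (.node (.leaf X157) (.leaf X669)) (.node (.leaf X413) .E))) (.node (.node (.node (.leaf X93) (.leaf X605)) (.node (.leaf X349) .E)) (.node (.node (.leaf X221) (.leaf X733)) (.node (.leaf X477) .E)))) (.node (.node (.node (.node (.leaf X61) (.leaf X573)) (.node (.leaf X317) .E)) (.node (.node (.leaf X189) (.leaf X701)) (.node (.leaf X445) .E))) (.node (.node (.node (.leaf X125) (.leaf X637)) (.node (.leaf X381) .E)) (.node (.node (.leaf X253) (.leaf X765)) (.node (.leaf X509) .E)))))))) (.node (.node (.node (.node (.node (.node (.node (.node (.leaf X3) (.leaf X515)) (.node (.leaf X259) (.leaf X771))) (.node (.node (.leaf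 X131) (.leaf X643)) (.node (.leaf X387) .E))) (.node (.node (.node (.leaf X67) (.leaf X579)) (.node (.leaf X323) .E)) (.node (.node (.leaf X195) (.leaf X707)) (.node (.leaf X451) .E)))) (.node (.node (.node (.node (.leaf X35) (.leaf X547)) (.node (.leaf X291) (.leaf X803))) (.node (.node (.leaf X163) (.leaf X675)) (.node (.leaf X419) .E))) (.node (.node (.node (.leaf X99) (.leaf X611)) (.node (.leaf X355) .E)) (.node (.node (.leaf X227) (.leaf X739)) (.node (.leaf X483) .E))))) (.node (.node (.node (.node (.node (.leaf X19) (.leaf X531)) (.node (.leaf X275) (.leaf X787))) (.node (.node (.leaf X147) (.leaf X659)) (.node (.leaf X403) .E))) (.node (.node (.node (.leaf X83) (.leaf X595)) (.node (.leaf X339) .E)) (.node (.node (.leaf X211) (.leaf X723)) (.node (.leaf X467) .E)))) (.node (.node (.node (.node (.leaf X51) (.leaf X563)) (.node (.leaf X307) .E)) (.node (.node (.leaf X179) (.leaf X691)) (.node (.leaf X435) .E))) (.node (.node (.node (.leaf X115) (.leaf X627)) (.node (.leaf X371) .E)) (.node (.node (.leaf X243) (.leaf X755)) (.node (.leaf X499) .E))))))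 (.node (.node (.node (.node (.node (.node (.leaf X11) (.leaf X523)) (.node (.leaf X267) (.leaf X779))) (.node (.node (.leaf X139) (.leaf X651)) (.node (.leaf X395) .E))) (.node (.node (.node (.leaf X75) (.leaf X587)) (.node (.leaf X331) .E)) (.node (.node (.leaf X203) (.leaf X715)) (.node (.leaf X459) .E)))) (.node (.node (.node (.node (.leaf X43) (.leaf X555)) (.node (.leaf X299) (.leaf X811))) (.node (.node (.leaf X171) (.leaf X683)) (.node (.leaf X427) .E))) (.node (.node (.node (.leaf X107) (.leaf X619)) (.node (.leaf X363) .E)) (.node (.node (.leaf X235) (.leaf X747)) (.node (.leaf X491) .E))))) (.node (.node (.node (.node (.node (.leaf X27) (.leaf X539)) (.node (.leaf X283) (.leaf X795))) (.node (.node (.leaf X155) (.leaf X667)) (.node (.leaf X411) .E))) (.node (.node (.node (.leaf X91) (.leaf X603)) (.node (.leaf X347) .E)) (.node (.node (.leaf X219) (.leaf X731)) (.node (.leaf X475) .E)))) (.node (.node (.node (.node (.leaf X59) (.leaf X571)) (.node (.leaf X315) .E)) (.node (.node (.leaf X187) (.leaf X699)) (.node (.leaf X443) .E))) (.node (.node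 (.node (.leaf X123) (.leaf X635)) (.node (.leaf X379) .E)) (.node (.node (.leaf X251) (.leaf X763)) (.node (.leaf X507) .E))))))) (.node (.node (.node (.node (.node (.node (.node (.leaf X7) (.leaf X519)) (.node (.leaf X263) (.leaf X775))) (.node (.node (.leaf X135) (.leaf X647)) (.node (.leaf X391) .E))) (.node (.node (.node (.leaf X71) (.leaf X583)) (.node (.leaf X327) .E)) (.node (.node (.leaf X199) (.leaf X711)) (.node (.leaf X455) .E)))) (.node (.node (.node (.node (.leaf X39) (.leaf X551)) (.node (.leaf X295) (.leaf X807))) (.node (.node (.leaf X167) (.leaf X679)) (.node (.leaf X423) .E))) (.node (.node (.node (.leaf X103) (.leaf X615)) (.node (.leaf X359) .E)) (.node (.node (.leaf X231) (.leaf X743)) (.node (.leaf X487) .E))))) (.node (.node (.node (.node (.node (.leaf X23) (.leaf X535)) (.node (.leaf X279) (.leaf X791))) (.node (.node (.leaf X151) (.leaf X663)) (.node (.leaf X407) .E))) (.node (.node (.node (.leaf X87) (.leaf X599)) (.node (.leaf X343) .E)) (.node (.node (.leaf X215) (.leaf X727)) (.node (.leaf X471) .E)))) (.node (.node (.node (.node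 (.leaf X55) (.leaf X567)) (.node (.leaf X311) .E)) (.node (.node (.leaf X183) (.leaf X695)) (.node (.leaf X439) .E))) (.node (.node (.node (.leaf X119) (.leaf X631)) (.node (.leaf X375) .E)) (.node (.node (.leaf X247) (.leaf X759)) (.node (.leaf X503) .E)))))) (.node (.node (.node (.node (.node (.node (.leaf X15) (.leaf X527)) (.node (.leaf X271) (.leaf X783))) (.node (.node (.leaf X143) (.leaf X655)) (.node (.leaf X399) .E))) (.node (.node (.node (.leaf X79) (.leaf X591)) (.node (.leaf X335) .E)) (.node (.node (.leaf X207) (.leaf X719)) (.node (.leaf X463) .E)))) (.node (.node (.node (.node (.leaf X47) (.leaf X559)) (.node (.leaf X303) (.leaf X815))) (.node (.node (.leaf X175) (.leaf X687)) (.node (.leaf X431) .E))) (.node (.node (.node (.leaf X111) (.leaf X623)) (.node (.leaf X367) .E)) (.node (.node (.leaf X239) (.leaf X751)) (.node (.leaf X495) .E))))) (.node (.node (.node (.node (.node (.leaf X31) (.leaf X543)) (.node (.leaf X287) (.leaf X799))) (.node (.node (.leaf X159) (.leaf X671)) (.node (.leaf X415) .E))) (.node (.node (.node (.leaf X95) (.leaf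 X607)) (.node (.leaf X351) .E)) (.node (.node (.leaf X223) (.leaf X735)) (.node (.leaf X479) .E)))) (.node (.node (.node (.node (.leaf X63) (.leaf X575)) (.node (.leaf X319) .E)) (.node (.node (.leaf X191) (.leaf X703)) (.node (.leaf X447) .E))) (.node (.node (.node (.leaf X127) (.leaf X639)) (.node (.leaf X383) .E)) (.node (.node (.leaf X255) (.leaf X767)) (.node (.leaf X511) .E))))))))))

end SYC
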